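import Pool.Agent.Helper40.Nm.Goals

/-!
Surjectivity of the norm on equivariant homomorphisms from a lattice.
-/

open CategoryTheory AlgebraicGeometry Limits TensorProduct

namespace Pool.Agent.Helper32.Nm

open Pool.Agent.Helper40.Nm

section Formal

variable {G C : Type} [Group G] [CommGroup C] [MulDistribMulAction G C] {g : ℕ}

theorem tr_mul (act : G →* AddMonoid.End (Lat g)) (γ : G) (f f' : Multiplicative (Lat g) →* C) :
    tr act γ (f * f') = tr act γ f * tr act γ f' := by
  ext x
  simp [tr, smul_mul']

theorem tr_one (act : G →* AddMonoid.End (Lat g)) (γ : G) :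
    tr act γ (1 : Multiplicative (Lat g) →* C) = 1 := by
  ext x
  simp [tr]

/-- `tr` as a homomorphism. -/
def trHom (act : G →* AddMonoid.End (Lat g)) (γ : G) :
    (Multiplicative (Lat g) →* C) →* (Multiplicative (Lat g) →* C) where
  toFun := tr act γ
  map_one' := tr_one act γ
  map_mul' := tr_mul act γ

theorem tr_tr (act : G →* AddMonoid.End (Lat g)) (γ δ : G) (f : Multiplicative (Lat g) →* C) :
    tr act (γ * δ) f = tr act γ (tr act δ f) := by
  apply MonoidHom.ext
  intro x
  simp only [tr, MonoidHom.coe_mk, OneHom.coe_mk, mul_inv_rev, map_mul, mul_smul, toAdd_ofAdd]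
  rfl

theorem tr_eq (act : G →* AddMonoid.End (Lat g)) (γ : G) {ψ : Multiplicative (Lat g) →* C}
    (hψ : ψ ∈ EqHom act C) : tr act γ ψ = ψ := by
  apply MonoidHom.ext
  intro x
  simp only [tr, MonoidHom.coe_mk, OneHom.coe_mk]
  rw [hψ γ]
  have h : act γ (act γ⁻¹ (Multiplicative.toAdd x)) = Multiplicative.toAdd x := by
    have h1 : (act γ * act γ⁻¹) (Multiplicative.toAdd x) = Multiplicative.toAdd x := by
      rw [← map_mul, mul_inv_cancel, map_one]
      rfl
    exact h1
  rw [h]
  rfl

theorem NT_mul [Fintype G] (act : G →* AddMonoid.End (Lat g))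
    (f f' : Multiplicative (Lat g) →* C) : NT act (f * f') = NT act f * NT act f' := by
  simp only [NT, tr_mul, Finset.prod_mul_distrib]

theorem NT_one [Fintype G] (act : G →* AddMonoid.End (Lat g)) :
    NT act (1 : Multiplicative (Lat g) →* C) = 1 := by
  simp [NT, tr_one]

/-- `NT` as a homomorphism. -/
noncomputable def NTHom [Fintype G] (act : G →* AddMonoid.End (Lat g)) :
    (Multiplicative (Lat g) →* C) →* (Multiplicative (Lat g) →* C) where
  toFun := NT act
  map_one' := NT_one act
  map_mul' := NT_mul act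

theorem NT_sub [Fintype G] (act : G →* AddMonoid.End (Lat g)) (H : Subgroup G) [Fintype H]
    (f ψ : Multiplicative (Lat g) →* C) (hψ : ψ ∈ EqHom act C)
    (hf : NT (act.comp H.subtype) f = ψ) : NT act f = ψ ^ H.index := by
  classical
  have : Fintype (G ⧸ H) := Fintype.ofFinite _
  have hbij : Function.Bijective (fun q : (G ⧸ H) × H => q.1.out * (q.2 : G)) := by
    constructor
    · rintro ⟨q, h⟩ ⟨q', h'⟩ he
      simp only at he
      have h1 : q = q' := by
        have h2 : (QuotientGroup.mk (q.out * (h : G)) : G ⧸ H) =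
            QuotientGroup.mk (q'.out * (h' : G)) := by rw [he]
        rw [QuotientGroup.mk_mul_of_mem _ h.2, QuotientGroup.mk_mul_of_mem _ h'.2] at h2
        simpa using h2
      subst h1
      have h3 : (h : G) = h' := mul_left_cancel he
      exact Prod.ext rfl (Subtype.ext h3)
    · intro γ
      obtain ⟨h, hh⟩ := QuotientGroup.mk_out_eq_mul H γ
      refine ⟨(QuotientGroup.mk γ, h⁻¹), ?_⟩
      simp only
      rw [hh]
      simp
  have h1 : NT act f = ∏ q : (G ⧸ H) × H, tr act (q.1.out * (q.2 : G)) f := by
    rw [NT]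
    exact (hbij.prod_comp (fun γ => tr act γ f)).symm
  rw [h1, Fintype.prod_prod_type]
  have h2 : ∀ q : G ⧸ H, ∏ h : H, tr act (q.out * (h : G)) f = ψ := by
    intro q
    simp only [tr_tr]
    have h3 : ∏ h : H, tr act q.out (tr act (h : G) f) =
        trHom act q.out (∏ h : H, tr act (h : G) f) := by
      rw [map_prod]
      rfl
    rw [h3]
    have h4 : ∏ h : H, tr act (h : G) f = ψ := by
      rw [← hf]
      rfl
    rw [h4]
    exact tr_eq act q.out hψ
  simp only [h2]
  rw [Finset.prod_const, Finset.card_univ, ← Nat.card_eq_fintype_card]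
  rfl

end Formal

theorem surj : COH2 → NPOW → EXT → SURJ := by
  intro coh npow ext R M E _ _ _ _ _ _ _ _ _ _ _ _ g act ψ hψ
  classical
  -- the Sylow step
  have key : ∀ l : ℕ, l.Prime → ∀ (H : Sylow l (E ≃ₐ[M] E)),
      ∃ f : Multiplicative (Lat g) →* Eˣ, NT act f = ψ ^ (H : Subgroup (E ≃ₐ[M] E)).index := by
    intro l hl H
    have : Fact l.Prime := ⟨hl⟩
    let H' : Subgroup (E ≃ₐ[M] E) := H
    have : Fintype H' := Fintype.ofFinite _
    let F : IntermediateField M E := IntermediateField.fixedField H'
    let _ : Algebra R F := ((algebraMap M F).comp (algebraMap R M)).toAlgebra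
    have : IsScalarTower R M F := IsScalarTower.of_algebraMap_eq' rfl
    obtain ⟨hfrac, hfin, hfree, hdvr, hadic, hac, _⟩ :=
      ext R M (integralClosure R F) F
    have hcard : ∃ r, Module.finrank F E = l ^ r := by
      obtain ⟨r, hr⟩ := IsPGroup.iff_card.mp H.isPGroup'
      refine ⟨r, ?_⟩
      rw [← hr]
      exact IntermediateField.finrank_fixedField_eq_card H'
    obtain ⟨r, hr⟩ := hcard
    have hnorm := npow (integralClosure R F) F E l r hl hr
    obtain ⟨f, hf⟩ := coh l H' Eˣ g (act.comp H'.subtype) H.isPGroup'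
      (by
        intro c hc
        have hcF : (c : E) ∈ F := by
          intro h
          have := congrArg Units.val (hc h)
          exact this
        obtain ⟨b, hb⟩ := hnorm ⟨c, hcF⟩
        have hb2 : (∏ σ : (E ≃ₐ[F] E), σ b) = (c : E) := by
          rw [← Algebra.norm_eq_prod_automorphisms, hb]
          rfl
        have hb0 : b ≠ 0 := by
          rintro rfl
          rw [Algebra.norm_zero] at hb
          have : (c : E) = 0 := by
            have := congrArg Subtype.val hb
            exact this.symm
          exact c.ne_zero this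
        refine ⟨Units.mk0 b hb0, ?_⟩
        apply Units.ext
        rw [Units.coe_prod, ← hb2]
        refine Fintype.prod_equiv (IntermediateField.subgroupEquivAlgEquiv H').toEquiv _ _ ?_
        intro h
        rfl)
      (by
        intro c hc
        obtain ⟨d, hd⟩ := groupCohomology.isMulCoboundary₁_of_isMulCocycle₁_of_aut_to_units
          (K := F) (L := E)
          (fun σ => c ((IntermediateField.subgroupEquivAlgEquiv H').symm σ))
          (by
            intro σ τ
            simp only
            rw [map_mul, hc, mul_comm]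
            congr 1
            )
        refine ⟨d, fun γ => ?_⟩
        have := hd (IntermediateField.subgroupEquivAlgEquiv H' γ)
        simp only [MulEquiv.symm_apply_apply] at this
        rw [← this]
        rfl)
      ψ (by
        intro γ x
        exact hψ (γ : E ≃ₐ[M] E) x)
    exact ⟨f, NT_sub act H' f ψ hψ hf⟩
  -- the indices generate the integers
  let T : AddSubgroup ℤ :=
    { carrier := {n | ∃ f : Multiplicative (Lat g) →* Eˣ, NTHom act f = ψ ^ n}
      zero_mem' := ⟨1, by simp⟩
      add_mem' := by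
        rintro a b ⟨f, hf⟩ ⟨f', hf'⟩
        exact ⟨f * f', by rw [map_mul, hf, hf', zpow_add]⟩
      neg_mem' := by
        rintro a ⟨f, hf⟩
        exact ⟨f⁻¹, by rw [map_inv, hf, zpow_neg]⟩ }
  obtain ⟨a, ha⟩ := Int.subgroup_cyclic T
  have hone : (1 : ℤ) ∈ T := by
    by_contra hcon
    have ha1 : a.natAbs ≠ 1 := by
      intro h1
      apply hcon
      rw [ha, AddSubgroup.mem_closure_singleton]
      rcases Int.natAbs_eq a with h | h
      · exact ⟨1, by rw [h, h1]; simp⟩
      · exact ⟨-1, by rw [h, h1]; simp⟩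
    obtain ⟨q, hq, hqa⟩ := Nat.exists_prime_and_dvd ha1
    have : Fact q.Prime := ⟨hq⟩
    obtain ⟨H⟩ : Nonempty (Sylow q (E ≃ₐ[M] E)) := inferInstance
    obtain ⟨f, hf⟩ := key q hq H
    have hmem : ((H : Subgroup (E ≃ₐ[M] E)).index : ℤ) ∈ T := ⟨f, by
      rw [zpow_natCast]; exact hf⟩
    rw [ha, AddSubgroup.mem_closure_singleton] at hmem
    obtain ⟨k, hk⟩ := hmem
    have hdvd : (q : ℤ) ∣ ((H : Subgroup (E ≃ₐ[M] E)).index : ℤ) := by
      rw [← hk, smul_eq_mul]
      exact Dvd.dvd.mul_left (Int.natCast_dvd.mpr hqa) k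
    exact H.not_dvd_index (Int.natCast_dvd_natCast.mp hdvd)
  obtain ⟨f, hf⟩ := hone
  exact ⟨f, by rw [zpow_one] at hf; exact hf⟩

end Pool.Agent.Helper32.Nm
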